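import Pool.Agent.H766Z.AspDefs
import Pool.Agent.H766Z.PrDefs
import Pool.Agent.H766Z.PrMain

/-!
# MP_17c4bf_an, Q1 and Q2: negative answers

There are locally convex spaces `E`, `F` such that `E × F` is Asplund while `E` is not even weak
Asplund.

Construction. `A ⊆ ℝ` is a Bernstein type set, `X` the closed span in `ℓ_∞(ℝ)` of the indicator
functions of the half lines `(-∞, a)`, `a ∈ A ∪ ℚ`, `H = ℓ_2(𝔠)`. Every product of `X × H` with a
separable space has a dense set of Gateaux points for each Lipschitz convex function, while
`x ↦ sup x` has a nonmeagre set of non-Gateaux points in `X`. `E ⊆ X × ℝ^I` and `F₁ ⊆ H × ℝ^I` are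
subspaces that project onto all countable subproducts and have finite dimensional bounded sets, and
`F = F₁ × c₀₀` with the pointwise topology on `c₀₀`. As `F` is meagre in itself and has uniformly
discrete families of size `𝔠`, the dense set of differentiability points in `E × F` contains a
dense `G_δ` set.
-/

set_option autoImplicit false

namespace Pool.Agent.Results.MP_17c4bf_an.AFactorNotAsplund

open Pool.Agent.H766Z.Asp

/-- There are real Hausdorff locally convex spaces `E`, `F` such that `E × F` is Asplund and weak
Asplund but `E` is neither Asplund nor weak Asplund. -/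
theorem result :
    ∃ (E : Type) (_ : AddCommGroup E) (_ : Module ℝ E) (_ : TopologicalSpace E)
      (_ : IsTopologicalAddGroup E) (_ : ContinuousSMul ℝ E)
      (F : Type) (_ : AddCommGroup F) (_ : Module ℝ F) (_ : TopologicalSpace F)
      (_ : IsTopologicalAddGroup F) (_ : ContinuousSMul ℝ F),
      T2Space E ∧ LocallyConvexSpace ℝ E ∧ T2Space F ∧ LocallyConvexSpace ℝ F ∧
      IsAsplund (E × F) ∧ IsWeakAsplund (E × F) ∧ ¬ IsAsplund E ∧ ¬ IsWeakAsplund E :=
  Pool.Agent.H766Z.Pr.counterexample

end Pool.Agent.Results.MP_17c4bf_an.AFactorNotAsplund
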